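import Pool.Agent.helper74.VDI.SpecF
import Pool.Agent.helper5.VD.FND

/-!
# Row vdi:FNF: the statement for one exact fundamental domain, for families (adapted from helper5/VD/FND.lean)
-/

set_option autoImplicit false

open scoped ContDiff Topology InnerProductSpace ENNReal ComplexConjugate
open MeasureTheory Filter Set

namespace Pool.Agent.VDI

open Pool.Agent.RPQ (PN PJ UN upd)
open Pool.Agent.VQ (CH rk)
open Pool.Agent.VN (aN)
open Pool.Agent.VD
open Pool.Agent.VDE (UWLD FDX)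

noncomputable section

theorem FNF_proof (hBC2F : BC2F_stmt) (hFMD : FMD_stmt) (hSED : SED_stmt) (hLND : LND_stmt) (hMVE : MVE_stmt)
    (hRSM : RPQ.RSM_stmt) (hAPUE : APUE_stmt) : FNF_stmt := by
  intro d Γ _ _ K F0 hd hK hF
  obtain ⟨ch, hch⟩ := FND_ch
  obtain ⟨r0, χ0, hPU, -⟩ := hAPUE d Γ K hK
  obtain ⟨Cn, k0, J, p, χ, -, hFam, hJ⟩ := hFMD d Γ K hK
  have hSE := hSED d Γ K Cn k0 J p χ hK hFam
  refine ⟨k0, J, FND_u J χ, hJ, ?_, ?_, ?_, ?_⟩
  · intro k j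
    by_cases h : j < J k
    · have hk : k0 ≤ k := by
        by_contra hk
        have := hFam.zero k (by omega)
        omega
      have hn := hFam.net k hk
      have he : FND_u J χ k j = fun x => aN k * χ k ⟨j, h⟩ x := by
        funext x
        unfold FND_u
        rw [dif_pos h]
      rw [he]
      refine ⟨contDiff_const.mul (hn.smooth ⟨j, h⟩), fun γ x => ?_, fun x => mul_nonneg (FND_aN k) (hn.bd ⟨j, h⟩ x).1⟩
      show aN k * χ k ⟨j, h⟩ (γ • x) = aN k * χ k ⟨j, h⟩ x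
      rw [hn.inv ⟨j, h⟩ γ x]
    · have he : FND_u J χ k j = fun _ => 0 := by
        funext x
        unfold FND_u
        rw [dif_neg h]
      rw [he]
      exact ⟨contDiff_const, fun γ x => rfl, fun x => le_refl _⟩
  · intro L hL n
    obtain ⟨c, C', hc, -, h, -⟩ := hFam.sum L hL
    refine ⟨c n, hc n, fun k ξ hξ => ?_⟩
    have h1 := h n k (fun q => ξ q.2) (fun q => hξ _)
    have he : (fun x : V d => ∑ j ∈ Finset.range (J k), ξ j * FND_u J χ k j x) = lD χ (fun q => ξ q.2) k := by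
      funext x
      unfold lD
      exact FND_sum J χ k ξ x
    rw [he]
    exact h1
  · intro ζ hζ
    have he : (fun x : V d => ∑' k, ∑ j ∈ Finset.range (J k), ζ (k, j) * FND_u J χ k j x) = rD χ ζ := by
      funext x
      rw [FND_tsum]
    rw [he]
    exact (hSE.1 ζ hζ).1
  · intro Q hQ m Gs hQm
    obtain ⟨hSF, hBC⟩ := hQ m Gs hQm
    have hBCP : BCP Γ K F0 J χ Gs := hBC r0 χ0 ch Cn k0 J p χ hPU hch hFam
    obtain ⟨S, hS1, hS2⟩ := hLND d Γ K hK
    have hae : ∀ᵐ ζ ∂PN, ∀ i n : ℕ, ∀ s : V m, NegativelyCurved (cfm (rD χ ζ) (Gs s)) → ∃ r1 : ℝ, 0 < r1 ∧ ∀ (μ : ℝ) (φ : V d → ℂ), r1 ≤ μ →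
        Eigenfunction Γ (cfm (rD χ ζ) (Gs s)) μ φ → |(∫ x in F0, S i x * ‖φ x‖ ^ 2 ∂mv (cfm (rD χ ζ) (Gs s))) -
          mean (cfm (rD χ ζ) (Gs s)) F0 (S i) * nn (cfm (rD χ ζ) (Gs s)) F0 φ| ≤ 1 / ((n : ℝ) + 1) * nn (cfm (rD χ ζ) (Gs s)) F0 φ := by
      rw [ae_all_iff]
      intro i
      rw [ae_all_iff]
      intro n
      exact hBC2F d Γ K F0 Cn k0 J p χ m Gs hd hK hF hFam hSF hBCP (S i) (1 / ((n : ℝ) + 1)) (hS1 i) (by positivity)
    filter_upwards [hae, hRSM.2.1] with ζ hζ hζ1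
    intro s hneg
    have he : (fun x : V d => ∑' k, ∑ j ∈ Finset.range (J k), ζ (k, j) * FND_u J χ k j x) = rD χ ζ := by
      funext x
      rw [FND_tsum]
    rw [he] at hneg ⊢
    exact FND_que hK hF hMVE (FND_met (hSE.1 ζ hζ1).1 (hSF.met s)) hS1 hS2 fun i n => hζ i n s hneg

end

end Pool.Agent.VDI
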